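import Pool.Agent.helper43.BMH.Spec

set_option autoImplicit false

namespace Pool.Agent.helper43.BMH

theorem t_pai (hr : ROW) (ha : AVG) : PAI := by
  intro ι _ _ _ T B z lam D hz
  have h := ha ι B z (fun u => (cnt T lam D u : ℝ)) (fun u => Nat.cast_nonneg _) hz
  have h2 : ∀ P : SP ι, (cnt (rowAct P T) lam D z : ℝ) = (cnt T lam D (act P z) : ℝ) := fun P => by
    rw [(hr ι T P).2 lam D z]
  rw [Finset.sum_congr rfl fun P _ => h2 P]
  exact h

end Pool.Agent.helper43.BMH
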